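import Pool.Agent.Q147.SP.Strat

/-!
# Independent tuples: relations with exponents in an arbitrary finite set
-/

set_option autoImplicit false

namespace Pool.Agent.Q147.SP

open Filter Module Pool.Agent.Y787.GL Pool.Agent.Y787.FE Pool.Agent.Y787.HS MvPolynomial
open Pool.Agent.TH519.GL Pool.Agent.TH519.HS Pool.Agent.Q147.LG
open Pool.Agent.Y787 (QC mem_QC HypC hyperplane hyperplane' Lt_one baker')

variable {Cc : Type} [Field Cc] [CharZero Cc] [IsAlgClosed Cc] [Uncountable Cc]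

omit [IsAlgClosed Cc] [Uncountable Cc] in
theorem transcendental_of_notMem {w : Cc} (hw : w ∉ QC Cc) : Transcendental (QC Cc) w := by
  intro h
  apply hw
  rw [mem_QC]
  have h1 : Algebra.IsAlgebraic ℚ (QC Cc) := algebraicClosure.isAlgebraic ℚ Cc
  exact h.restrictScalars ℚ

omit [IsAlgClosed Cc] [Uncountable Cc] in
theorem algInd_of_notMem {w : Cc} (hw : w ∉ QC Cc) :
    AlgebraicIndependent (QC Cc) (Sum.elim (fun i : Fin 0 => (i.elim0 : Cc)) fun _ : Fin 1 => w) := by
  have h1 : AlgebraicIndependent (QC Cc) (fun _ : Fin 1 => w) :=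
    algebraicIndependent_unique_type_iff.2 (transcendental_of_notMem hw)
  have h2 := h1.comp (Equiv.emptySum (Fin 0) (Fin 1)) (Equiv.injective _)
  convert h2 using 1
  funext k
  cases k with
  | inl i => exact i.elim0
  | inr i => rfl

omit [IsAlgClosed Cc] [Uncountable Cc] in
theorem notMem_of_li {m : ℕ} (y : Fin m → Cc)
    (hy1 : LinearIndependent (QC Cc) (Fin.cons 1 y : Fin (m + 1) → Cc)) (u : Fin m → QC Cc)
    (hu : u ≠ 0) : ∑ i, (u i : Cc) * y i ∉ QC Cc := by
  intro hz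
  rw [Fintype.linearIndependent_iff] at hy1
  have h3 := hy1 (Fin.cons (-⟨_, hz⟩) u) (by
    rw [Fin.sum_univ_succ]
    simp only [Fin.cons_zero, Fin.cons_succ]
    have h4 : ∀ i, u i • y i = (u i : Cc) * y i := by
      intro i
      rw [Algebra.smul_def]
      rfl
    simp only [h4]
    rw [Algebra.smul_def, mul_one, map_neg]
    exact neg_add_cancel _)
  apply hu
  funext i
  have := h3 i.succ
  rwa [Fin.cons_succ] at this

omit [IsAlgClosed Cc] [Uncountable Cc] in
theorem up_rel {m : ℕ} (A : Finset (Fin m →₀ ℕ)) (y : Fin m → Cc) (hy2 : RlA (QC Cc) A y) :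
    RlA (QC Cc) (up A) (Sum.elim (fun i : Fin 0 => i.elim0) y) := by
  classical
  obtain ⟨f, hf0, hfA, hf⟩ := hy2
  refine ⟨rename Sum.inr f, ?_, ?_, ?_⟩
  · intro h
    apply hf0
    apply rename_injective _ Sum.inr_injective
    rw [h, map_zero]
  · intro s hs
    rw [support_rename_of_injective Sum.inr_injective, Finset.mem_image] at hs
    obtain ⟨t, ht, rfl⟩ := hs
    exact (mem_up _ _).2 ⟨t, hfA ht, rfl⟩
  · rw [aeval_rename]
    exact hf

omit [IsAlgClosed Cc] [Uncountable Cc] in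
theorem stratS_of_li {m : ℕ} (A : Finset (Fin m →₀ ℕ)) (y : Fin m → Cc)
    (hy1 : LinearIndependent (QC Cc) (Fin.cons 1 y : Fin (m + 1) → Cc))
    (hy2 : RlA (QC Cc) A y) : StratS 1 (up A) (fun i : Fin 0 => i.elim0) y := by
  classical
  refine ⟨up_rel A y hy2, fun i h => ?_, fun u hu => ?_⟩
  · have h1 := hy1.ne_zero i.succ
    rw [Fin.cons_succ] at h1
    exact h1 h
  · have h1 := algInd_of_notMem (notMem_of_li y hy1 (u 0) (hu.ne_zero 0))
    have h2 : (fun j : Fin 1 => ∑ i, (u j i : Cc) * y i) =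
        fun _ : Fin 1 => ∑ i, (u 0 i : Cc) * y i := by
      funext j
      rw [Subsingleton.elim j 0]
    rw [h2]
    exact h1

/-- the tuples with a relation with exponents in `A` such that any `s` independent combinations
are algebraically independent -/
def DepS {m : ℕ} (s : ℕ) (A : Finset (Fin m →₀ ℕ)) : Set (Fin m → Cc) :=
  {y | (∀ i, y i ≠ 0) ∧ (∀ u : Fin s → Fin m → (QC Cc), LinearIndependent (QC Cc) u →
      AlgebraicIndependent (QC Cc) (fun j => ∑ i, (u j i : Cc) * y i)) ∧ RlA (QC Cc) A y}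

omit [IsAlgClosed Cc] [Uncountable Cc] in
theorem stratS_of_depS {m s : ℕ} {A : Finset (Fin m →₀ ℕ)} {y : Fin m → Cc} (hy : y ∈ DepS s A) :
    StratS s (up A) (fun i : Fin 0 => i.elim0) y := by
  refine ⟨up_rel A y hy.2.2, hy.1, fun u hu => ?_⟩
  have h2 := (hy.2.1 u hu).comp (Equiv.emptySum (Fin 0) (Fin s)) (Equiv.injective _)
  convert h2 using 1
  funext k
  cases k with
  | inl i => exact i.elim0
  | inr i => rfl

variable {Lt : Submodule (QC Cc) Cc} [HypC Lt]

/-- **Strata of tuples.** -/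
theorem thin_depS {m s h c : ℕ} (hs : s < m) (hh : 0 < h)
    (A B E : Finset (Fin m →₀ ℕ))
    (hE : ∀ s ∈ A, ∀ t ∈ B, s + t ∈ E) (hmB : m * h ≤ B.card)
    (hq1 : m * (h * m - 1) + (E.card - B.card) / h + 1 ≤ c)
    (hq2 : m * (m - 1) + B.card ≤ c) :
    Thin Lt (fun M => (m - 1 - s) * M + c) (DepS (Cc := Cc) s A) := by
  have h1 := thin_stratS (Lt := Lt) (s := s) hs hh (up A) (up B) (up E)
    (add_up hE) (by rwa [card_up]) (fun i : Fin 0 => i.elim0) (c := c)
    (by rwa [card_up, card_up]) (by rwa [card_up])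
  exact h1.mono (fun y hy => stratS_of_depS hy) fun M => le_rfl

/-- strata of tuples, without multipliers -/
theorem thin_depS_one {m s : ℕ} (hs : s < m) (A : Finset (Fin m →₀ ℕ)) (hA0 : 0 < A.card) :
    Thin Lt (fun M => (m - 1 - s) * M + (m * (m - 1) + A.card)) (DepS (Cc := Cc) s A) := by
  have h1 := thin_stratS_one (Lt := Lt) (s := s) hs (up A) (by rwa [card_up])
    (fun i : Fin 0 => i.elim0)
  refine h1.mono (fun y hy => stratS_of_depS hy) fun M => ?_
  simp only [card_up]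
  exact le_rfl

/-- **Independent tuples.** -/
theorem thin_dep' {m h c : ℕ} (hm : 1 < m) (hh : 0 < h)
    (A B E : Finset (Fin m →₀ ℕ))
    (hE : ∀ s ∈ A, ∀ t ∈ B, s + t ∈ E) (hmB : m * h ≤ B.card)
    (hq1 : m * (h * m - 1) + (E.card - B.card) / h + 1 ≤ c)
    (hq2 : m * (m - 1) + B.card ≤ c) :
    Thin Lt (fun M => (m - 2) * M + c) (Dep (Cc := Cc) A) := by
  have h1 := thin_stratS (Lt := Lt) (s := 1) hm hh (up A) (up B) (up E)
    (add_up hE) (by rwa [card_up]) (fun i : Fin 0 => i.elim0) (c := c)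
    (by rwa [card_up, card_up]) (by rwa [card_up])
  refine h1.mono (fun y hy => stratS_of_li A y hy.1 hy.2) fun M => ?_
  have : m - 1 - 1 = m - 2 := by omega
  rw [this]

theorem thin_dep_one' {m : ℕ} (hm : 1 < m) (A : Finset (Fin m →₀ ℕ)) (hA0 : 0 < A.card) :
    Thin Lt (fun M => (m - 2) * M + (m * (m - 1) + A.card)) (Dep (Cc := Cc) A) := by
  have h1 := thin_stratS_one (Lt := Lt) (s := 1) hm (up A) (by rwa [card_up])
    (fun i : Fin 0 => i.elim0)
  refine h1.mono (fun y hy => stratS_of_li A y hy.1 hy.2) fun M => ?_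
  have : m - 1 - 1 = m - 2 := by omega
  simp only [this, card_up]
  exact le_rfl

omit [IsAlgClosed Cc] [Uncountable Cc] [HypC Lt] in
/-- **Finite unions.** -/
theorem thin_biUnion {m : ℕ} {q : ℕ → ℕ} {ι : Type} (T : Finset ι) (S : ι → Set (Fin m → Cc))
    (h : ∀ i ∈ T, Thin Lt q (S i)) : Thin Lt q {y | ∃ i ∈ T, y ∈ S i} := by
  classical
  intro M l' hl hl' φ
  have h1 : ∀ i : T, ∃ P : MvPolynomial (Fin (q M)) (QC Cc), P ≠ 0 ∧
      ∀ b : Fin m → Fin M → (QC Cc), yy l' b ∈ S i →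
        MvPolynomial.eval (fun k => φ k (fun z => b z.1 z.2)) P = 0 :=
    fun i => h i i.2 M l' hl hl' φ
  choose P hP1 hP2 using h1
  refine ⟨∏ i, P i, Finset.prod_ne_zero_iff.2 fun i _ => hP1 i, fun b hb => ?_⟩
  obtain ⟨i, hi, hb⟩ := hb
  rw [map_prod]
  exact Finset.prod_eq_zero (Finset.mem_univ (⟨i, hi⟩ : T)) (hP2 ⟨i, hi⟩ b hb)

/-- the independent tuples with a relation of degree at most `D` with at most `k` monomials -/
def Few {m : ℕ} (D k : ℕ) : Set (Fin m → Cc) :=
  {y | LinearIndependent (QC Cc) (Fin.cons 1 y : Fin (m + 1) → Cc) ∧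
    ∃ f : MvPolynomial (Fin m) (QC Cc), f ≠ 0 ∧ f.totalDegree ≤ D ∧ f.support.card ≤ k ∧
      aeval y f = 0}

/-- **Few monomials.** -/
theorem thin_few {m : ℕ} (hm : 1 < m) (D k : ℕ) :
    Thin Lt (fun M => (m - 2) * M + (m * (m - 1) + k)) (Few (Cc := Cc) (m := m) D k) := by
  classical
  have h1 := thin_biUnion (Lt := Lt) (q := fun M => (m - 2) * M + (m * (m - 1) + k))
    ((box (fun _ : Fin m => D)).powerset.filter fun A => 0 < A.card ∧ A.card ≤ k)
    (fun A => Dep (Cc := Cc) A) (by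
      intro A hA
      rw [Finset.mem_filter] at hA
      exact (thin_dep_one' (Lt := Lt) hm A hA.2.1).mono (fun y hy => hy) fun M => by
        have := hA.2.2
        omega)
  refine h1.mono ?_ fun M => le_rfl
  rintro y ⟨hy, f, hf0, hfD, hfk, hf⟩
  refine ⟨f.support, ?_, hy, f, hf0, subset_rfl, hf⟩
  rw [Finset.mem_filter, Finset.mem_powerset]
  refine ⟨fun s hs => ?_, Finset.card_pos.2 (support_nonempty.2 hf0), hfk⟩
  rw [mem_box]
  intro i
  exact ((Finsupp.le_degree i s)).trans ((le_totalDegree hs).trans hfD)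

end Pool.Agent.Q147.SP
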