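import Pool.Agent.Q147.SP.Lattice

/-!
# Few monomials: strata
-/

set_option autoImplicit false

namespace Pool.Agent.Q147.SP

open Filter Module Pool.Agent.Y787.GL Pool.Agent.Y787.FE Pool.Agent.Y787.HS MvPolynomial
open Pool.Agent.TH519.GL Pool.Agent.TH519.HS Pool.Agent.Q147.LG
open Pool.Agent.Y787 (QC mem_QC HypC hyperplane hyperplane' Lt_one baker')

variable {Cc : Type} [Field Cc] [CharZero Cc] [IsAlgClosed Cc] [Uncountable Cc]
  {Lt : Submodule (QC Cc) Cc} [HypC Lt]

omit [IsAlgClosed Cc] [Uncountable Cc] in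
/-- if independent combinations are algebraically independent then the numbers are not zero -/
theorem ne_zero_of_indep {m s : ℕ} (hs0 : 0 < s) (hs : s ≤ m) (y : Fin m → Cc)
    (hy : ∀ u : Fin s → Fin m → (QC Cc), LinearIndependent (QC Cc) u →
      AlgebraicIndependent (QC Cc) (fun j => ∑ i, (u j i : Cc) * y i)) (i : Fin m) : y i ≠ 0 := by
  classical
  intro h0
  let e : Equiv.Perm (Fin m) := Equiv.swap (Fin.castLE hs ⟨0, hs0⟩) i
  have h1 : LinearIndependent (QC Cc)
      (fun j : Fin s => (Pi.single (e (Fin.castLE hs j)) 1 : Fin m → QC Cc)) := by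
    have := (Pi.basisFun (QC Cc) (Fin m)).linearIndependent.comp _
      (e.injective.comp (Fin.castLE_injective hs))
    convert this using 1
    funext j
    simp
  have h2 := (hy _ h1).transcendental ⟨0, hs0⟩
  apply h2
  have h3 : ∑ k, ((Pi.single (e (Fin.castLE hs ⟨0, hs0⟩)) 1 : Fin m → QC Cc) k : Cc) * y k = 0 := by
    rw [Finset.sum_eq_single i]
    · rw [h0, mul_zero]
    · intro k _ hk
      have h4 : e (Fin.castLE hs ⟨0, hs0⟩) = i := Equiv.swap_apply_left _ _
      rw [h4, Pi.single_eq_of_ne hk]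
      push_cast
      rw [zero_mul]
    · intro h; exact absurd (Finset.mem_univ i) h
  rw [h3]
  exact isAlgebraic_zero

/-- the tuples with a relation of degree at most `D` with at most `k` monomials such that any `s`
independent combinations are algebraically independent -/
def FewS {m : ℕ} (s D k : ℕ) : Set (Fin m → Cc) :=
  {y | (∀ u : Fin s → Fin m → (QC Cc), LinearIndependent (QC Cc) u →
      AlgebraicIndependent (QC Cc) (fun j => ∑ i, (u j i : Cc) * y i)) ∧
    ∃ f : MvPolynomial (Fin m) (QC Cc), f ≠ 0 ∧ f.totalDegree ≤ D ∧ f.support.card ≤ k ∧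
      aeval y f = 0}

/-- **Few monomials, strata.** -/
theorem thin_fewS {m s : ℕ} (hs0 : 0 < s) (hs : s < m) (D k : ℕ) :
    Thin Lt (fun M => (m - 1 - s) * M + (m * (m - 1) + k)) (FewS (Cc := Cc) (m := m) s D k) := by
  classical
  have h1 := thin_biUnion (Lt := Lt) (q := fun M => (m - 1 - s) * M + (m * (m - 1) + k))
    ((box (fun _ : Fin m => D)).powerset.filter fun A => 0 < A.card ∧ A.card ≤ k)
    (fun A => DepS (Cc := Cc) s A) (by
      intro A hA
      rw [Finset.mem_filter] at hA
      exact (thin_depS_one (Lt := Lt) hs A hA.2.1).mono (fun y hy => hy) fun M => by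
        have := hA.2.2
        omega)
  refine h1.mono ?_ fun M => le_rfl
  rintro y ⟨hy, f, hf0, hfD, hfk, hf⟩
  refine ⟨f.support, ?_, ne_zero_of_indep hs0 hs.le y hy, hy, f, hf0, subset_rfl, hf⟩
  rw [Finset.mem_filter, Finset.mem_powerset]
  refine ⟨fun s hs => ?_, Finset.card_pos.2 (support_nonempty.2 hf0), hfk⟩
  rw [mem_box]
  intro i
  exact ((Finsupp.le_degree i s)).trans ((le_totalDegree hs).trans hfD)

end Pool.Agent.Q147.SP
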