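import Pool.Agent.Q147.SP.FewS

/-!
# Few monomials, over given numbers
-/

set_option autoImplicit false

namespace Pool.Agent.Q147.SP

open Filter Module Pool.Agent.Y787.GL Pool.Agent.Y787.FE Pool.Agent.Y787.HS MvPolynomial
open Pool.Agent.TH519.GL Pool.Agent.TH519.HS Pool.Agent.Q147.LG
open Pool.Agent.Y787 (QC mem_QC HypC hyperplane hyperplane' Lt_one baker')

variable {Cc : Type} [Field Cc] [CharZero Cc] [IsAlgClosed Cc] [Uncountable Cc]
  {Lt : Submodule (QC Cc) Cc} [HypC Lt]

/-- the tuples `y` such that `(x, y)` satisfies a relation of degree at most `D` with at most `k`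
monomials and `x` with any `s` independent combinations of the `y i` is algebraically independent -/
def FewX {n m : ℕ} (s D k : ℕ) (x : Fin n → Cc) : Set (Fin m → Cc) :=
  {y | (∃ f : MvPolynomial (Fin n ⊕ Fin m) (QC Cc), f ≠ 0 ∧ f.totalDegree ≤ D ∧
      f.support.card ≤ k ∧ aeval (Sum.elim x y) f = 0) ∧ (∀ i, y i ≠ 0) ∧
    ∀ u : Fin s → Fin m → (QC Cc), LinearIndependent (QC Cc) u →
      AlgebraicIndependent (QC Cc) (Sum.elim x fun j => ∑ i, (u j i : Cc) * y i)}

/-- **Few monomials, strata over `x`.** -/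
theorem thin_fewX {n m s : ℕ} (hs : s < m) (D k : ℕ) (x : Fin n → Cc) :
    Thin Lt (fun M => (m - 1 - s) * M + (m * (m - 1) + k)) (FewX (Cc := Cc) (m := m) s D k x) := by
  classical
  have h1 := thin_biUnion (Lt := Lt) (q := fun M => (m - 1 - s) * M + (m * (m - 1) + k))
    ((box (fun _ : Fin n ⊕ Fin m => D)).powerset.filter fun A => 0 < A.card ∧ A.card ≤ k)
    (fun A => {y : Fin m → Cc | StratS s A x y}) (by
      intro A hA
      rw [Finset.mem_filter] at hA
      exact (thin_stratS_one (Lt := Lt) hs A hA.2.1 x).mono (fun y hy => hy) fun M => by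
        have := hA.2.2
        omega)
  refine h1.mono ?_ fun M => le_rfl
  rintro y ⟨⟨f, hf0, hfD, hfk, hf⟩, hy1, hy2⟩
  refine ⟨f.support, ?_, ⟨f, hf0, subset_rfl, hf⟩, hy1, hy2⟩
  rw [Finset.mem_filter, Finset.mem_powerset]
  refine ⟨fun s hs => ?_, Finset.card_pos.2 (support_nonempty.2 hf0), hfk⟩
  rw [mem_box]
  intro i
  exact ((Finsupp.le_degree i s)).trans ((le_totalDegree hs).trans hfD)

end Pool.Agent.Q147.SP
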