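import Pool.Agent.Q147.SP.Few

/-!
# Relations between monomials
-/

set_option autoImplicit false

namespace Pool.Agent.Q147.SP

open Filter Module Pool.Agent.Y787.GL Pool.Agent.Y787.FE Pool.Agent.Y787.HS MvPolynomial
open Pool.Agent.TH519.GL Pool.Agent.TH519.HS Pool.Agent.Q147.LG
open Pool.Agent.Y787 (QC mem_QC HypC hyperplane hyperplane' Lt_one baker')

/-- the exponent of a monomial in the monomials `μ i` -/
noncomputable def psi {r m : ℕ} (μ : Fin r → (Fin m →₀ ℕ)) (s : Fin r →₀ ℕ) : Fin m →₀ ℕ :=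
  ∑ i, s i • μ i

theorem psi_add {r m : ℕ} (μ : Fin r → (Fin m →₀ ℕ)) (s t : Fin r →₀ ℕ) :
    psi μ (s + t) = psi μ s + psi μ t := by
  simp only [psi, Finsupp.add_apply, add_smul, Finset.sum_add_distrib]

theorem psi_apply {r m : ℕ} (μ : Fin r → (Fin m →₀ ℕ)) (s : Fin r →₀ ℕ) (j : Fin m) :
    psi μ s j = ∑ i, s i * μ i j := by
  rw [psi, Finsupp.finsetSum_apply]
  rfl

theorem psi_injective {r m : ℕ} (μ : Fin r → (Fin m →₀ ℕ))
    (hμ : LinearIndependent ℤ (fun (i : Fin r) (j : Fin m) => (μ i j : ℤ))) :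
    Function.Injective (psi μ) := by
  intro s t h
  rw [Fintype.linearIndependent_iff] at hμ
  have h1 := hμ (fun i => (s i : ℤ) - (t i : ℤ)) (by
    funext j
    rw [Finset.sum_apply]
    have h2 := DFunLike.congr_fun h j
    rw [psi_apply, psi_apply] at h2
    have h3 : ((∑ i, s i * μ i j : ℕ) : ℤ) = ((∑ i, t i * μ i j : ℕ) : ℤ) := by rw [h2]
    push_cast at h3
    simp only [Pi.smul_apply, smul_eq_mul, sub_mul, Finset.sum_sub_distrib, Pi.zero_apply]
    rw [h3, sub_self])
  ext i
  have h2 := h1 i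
  omega

section

variable {K : Type} [Field K] {L : Type} [Field L] [Algebra K L]

theorem subst_eq {r m : ℕ} (μ : Fin r → (Fin m →₀ ℕ)) (F : MvPolynomial (Fin r) K) :
    aeval (fun i => monomial (μ i) (1 : K)) F =
      ∑ s ∈ F.support, monomial (psi μ s) (coeff s F) := by
  conv_lhs => rw [F.as_sum]
  rw [map_sum]
  refine Finset.sum_congr rfl fun s _ => ?_
  rw [aeval_monomial, Finsupp.prod_fintype _ _ (fun i => pow_zero _)]
  have h1 : ∏ i, (monomial (μ i) (1 : K)) ^ s i = monomial (psi μ s) (1 : K) := by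
    rw [psi]
    have : ∀ i, (monomial (μ i) (1 : K)) ^ s i = monomial (s i • μ i) (1 : K) := fun i => by
      rw [monomial_pow, one_pow]
    simp only [this]
    exact (monomial_sum_one Finset.univ fun i => s i • μ i).symm
  rw [h1, algebraMap_eq, C_mul_monomial, mul_one]

theorem coeff_subst {r m : ℕ} (μ : Fin r → (Fin m →₀ ℕ)) (hμ : Function.Injective (psi μ))
    (F : MvPolynomial (Fin r) K) (s : Fin r →₀ ℕ) :
    coeff (psi μ s) (aeval (fun i => monomial (μ i) (1 : K)) F) = coeff s F := by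
  classical
  rw [subst_eq, coeff_sum]
  by_cases hs : s ∈ F.support
  · rw [Finset.sum_eq_single s]
    · rw [coeff_monomial, if_pos rfl]
    · intro t _ hts
      rw [coeff_monomial, if_neg fun h => hts (hμ h)]
    · intro h; exact absurd hs h
  · rw [notMem_support_iff.1 hs]
    refine Finset.sum_eq_zero fun t ht => ?_
    rw [coeff_monomial, if_neg]
    intro h
    rw [hμ h] at ht
    exact hs ht

/-- a relation between monomials is a relation with exponents in a lattice box -/
theorem rel_of_monomials {r m : ℕ} (μ : Fin r → (Fin m →₀ ℕ)) (hμ : Function.Injective (psi μ))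
    (a : Fin r → ℕ) (y : Fin m → L) (F : MvPolynomial (Fin r) K) (hF0 : F ≠ 0)
    (hFa : ∀ i, F.degreeOf i ≤ a i) (hF : aeval (fun i => ∏ j, y j ^ μ i j) F = 0) :
    ∃ f : MvPolynomial (Fin m) K, f ≠ 0 ∧ (∀ t ∈ f.support, ∃ s ∈ box a, psi μ s = t) ∧
      aeval y f = 0 := by
  classical
  refine ⟨aeval (fun i => monomial (μ i) (1 : K)) F, ?_, ?_, ?_⟩
  · intro h
    apply hF0
    ext s
    rw [← coeff_subst μ hμ F s, h, coeff_zero, coeff_zero]
  · intro t ht
    rw [MvPolynomial.mem_support_iff, subst_eq, coeff_sum] at ht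
    obtain ⟨s, hs, hs'⟩ := Finset.exists_ne_zero_of_sum_ne_zero ht
    rw [coeff_monomial] at hs'
    by_cases h : psi μ s = t
    · refine ⟨s, ?_, h⟩
      rw [mem_box]
      exact fun i => (degreeOf_le_iff.1 (hFa i)) s hs
    · rw [if_neg h] at hs'; exact absurd rfl hs'
  · rw [← hF]
    have h1 : (aeval y).comp (aeval fun i => monomial (μ i) (1 : K)) =
        (aeval (fun i => ∏ j, y j ^ μ i j) : MvPolynomial (Fin r) K →ₐ[K] L) := by
      apply MvPolynomial.algHom_ext
      intro i
      rw [AlgHom.comp_apply, aeval_X, aeval_X, aeval_monomial,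
        Finsupp.prod_fintype _ _ (fun i => pow_zero _), map_one, one_mul]
    exact DFunLike.congr_fun h1 F

end

variable {Cc : Type} [Field Cc] [CharZero Cc] [IsAlgClosed Cc] [Uncountable Cc]
  {Lt : Submodule (QC Cc) Cc} [HypC Lt]

/-- the independent tuples for which the monomials `y ^ μ i` satisfy a relation of degree at most
`a i` in the `i`-th variable -/
def Mono {r m : ℕ} (μ : Fin r → (Fin m →₀ ℕ)) (a : Fin r → ℕ) : Set (Fin m → Cc) :=
  {y | LinearIndependent (QC Cc) (Fin.cons 1 y : Fin (m + 1) → Cc) ∧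
    ∃ F : MvPolynomial (Fin r) (QC Cc), F ≠ 0 ∧ (∀ i, F.degreeOf i ≤ a i) ∧
      aeval (fun i => ∏ j, y j ^ μ i j) F = 0}

/-- **Relations between monomials.** -/
theorem thin_mono {r m : ℕ} (hm : 1 < m) (hr : 0 < r) (μ : Fin r → (Fin m →₀ ℕ))
    (hμ : LinearIndependent ℤ (fun (i : Fin r) (j : Fin m) => (μ i j : ℤ))) (a : Fin r → ℕ) :
    Thin Lt (fun M => (m - 2) * M + con m r * num a) (Mono (Cc := Cc) μ a) := by
  classical
  have hinj := psi_injective μ hμ
  have hm0 : 0 < m := by omega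
  let i₀ : Fin r := ⟨0, hr⟩
  let A := (box a).image (psi μ)
  let B := (box (side m i₀ a)).image (psi μ)
  let E := (box (fun i => a i + side m i₀ a i)).image (psi μ)
  have hB : B.card = (box (side m i₀ a)).card := Finset.card_image_of_injective _ hinj
  have hEc : E.card = (box (fun i => a i + side m i₀ a i)).card :=
    Finset.card_image_of_injective _ hinj
  have h1 : Thin Lt (fun M => (m - 2) * M + con m r * num a) (Dep (Cc := Cc) A) := by
    refine thin_dep' hm (num_pos a) A B E ?_ ?_ ?_ ?_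
    · intro s hs t ht
      obtain ⟨s', hs', rfl⟩ := Finset.mem_image.1 hs
      obtain ⟨t', ht', rfl⟩ := Finset.mem_image.1 ht
      exact Finset.mem_image.2 ⟨s' + t', add_box _ _ s' hs' t' ht', psi_add μ s' t'⟩
    · rw [hB]
      exact le_of_eq (card_side hm0 i₀ a).symm
    · rw [hB, hEc]
      have := con_bound1 hm0 i₀ a
      rwa [Fintype.card_fin] at this
    · rw [hB]
      have := con_bound2 hm0 i₀ a
      rwa [Fintype.card_fin] at this
  refine h1.mono ?_ fun M => le_rfl
  rintro y ⟨hy, F, hF0, hFa, hF⟩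
  obtain ⟨f, hf0, hfA, hf⟩ := rel_of_monomials μ hinj a y F hF0 hFa hF
  refine ⟨hy, f, hf0, fun t ht => ?_, hf⟩
  obtain ⟨s, hs, hst⟩ := hfA t ht
  exact Finset.mem_image.2 ⟨s, hs, hst⟩

end Pool.Agent.Q147.SP
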