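import Pool.Agent.Q147.SP.Supp
import Pool.Agent.Q147.LG.Thin

/-!
# Relations with exponents in an arbitrary finite set: strata
-/

set_option autoImplicit false

namespace Pool.Agent.Q147.SP

open Filter Module Pool.Agent.Y787.GL Pool.Agent.Y787.FE Pool.Agent.Y787.HS MvPolynomial
open Pool.Agent.TH519.GL Pool.Agent.TH519.HS Pool.Agent.Q147.LG
open Pool.Agent.Y787 (QC mem_QC HypC hyperplane hyperplane' Lt_one baker')

variable {Cc : Type} [Field Cc] [CharZero Cc] [IsAlgClosed Cc] [Uncountable Cc]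
  {Lt : Submodule (QC Cc) Cc} [HypC Lt]

/-- `(x, y)` satisfies a relation with exponents in `A`, but `x` together with `s` independent
linear combinations of the `y i` is always algebraically independent -/
def StratS {n m : ℕ} (s : ℕ) (A : Finset ((Fin n ⊕ Fin m) →₀ ℕ)) (x : Fin n → Cc)
    (y : Fin m → Cc) : Prop :=
  RlA (QC Cc) A (Sum.elim x y) ∧ (∀ i, y i ≠ 0) ∧
    ∀ u : Fin s → Fin m → (QC Cc), LinearIndependent (QC Cc) u →
      AlgebraicIndependent (QC Cc) (Sum.elim x fun j => ∑ i, (u j i : Cc) * y i)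

omit [Uncountable Cc] [IsAlgClosed Cc] in
theorem StratS.indep {n m s : ℕ} {A : Finset ((Fin n ⊕ Fin m) →₀ ℕ)} {x : Fin n → Cc}
    {y : Fin m → Cc} (h : StratS s A x y) (hs : s ≤ m) : AlgebraicIndependent (QC Cc) x := by
  classical
  have h1 : LinearIndependent (QC Cc)
      (fun j : Fin s => (Pi.single (Fin.castLE hs j) 1 : Fin m → QC Cc)) := by
    have := (Pi.basisFun (QC Cc) (Fin m)).linearIndependent.comp _ (Fin.castLE_injective hs)
    convert this using 1
    funext j
    simp
  have h2 := (h.2.2 _ h1).comp Sum.inl Sum.inl_injective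
  exact h2

omit [Uncountable Cc] [IsAlgClosed Cc] in
theorem rankS {n m s : ℕ} {A : Finset ((Fin n ⊕ Fin m) →₀ ℕ)} (hs : s < m) (x : Fin n → Cc)
    (y : Fin m → Cc) (hy : StratS s A x y)
    (f : MvPolynomial (Fin n ⊕ Fin m) (QC Cc)) (hf0 : f ≠ 0) (hfA : f.support ⊆ A)
    (hf : MvPolynomial.aeval (Sum.elim x y) f = 0)
    (hmin : ∀ g : MvPolynomial (Fin n ⊕ Fin m) (QC Cc), g ≠ 0 → g.support ⊆ A →
      MvPolynomial.aeval (Sum.elim x y) g = 0 → f.support.card ≤ g.support.card) :
    finrank (QC Cc) (RelF (Sum.elim x y) f) ≤ m - 1 - s := by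
  classical
  by_contra hcon
  obtain ⟨u, w, hu, huw, hker⟩ := exists_forms hs.le (RelF (Sum.elim x y) f) (by omega)
  set G : Fin m → Cc := fun i => MvPolynomial.aeval (Sum.elim x y)
    (MvPolynomial.pderiv (Sum.inr i : Fin n ⊕ Fin m) f) with hG
  -- the derivatives are combinations of the rows of `u`
  have hGu : ∀ i, G i = ∑ j, (u j i : Cc) * ∑ k, (w j k : Cc) * G k := by
    intro i
    set v : Fin m → (QC Cc) :=
      fun k => (Pi.single i 1 : Fin m → (QC Cc)) k - ∑ j, u j i * w j k with hv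
    have h1 : v ∈ RelF (Sum.elim x y) f := by
      apply hker
      intro j
      simp only [hv, mul_sub, Finset.sum_sub_distrib]
      have h2 : ∑ k, u j k * (Pi.single i 1 : Fin m → (QC Cc)) k = u j i := by
        rw [Finset.sum_eq_single i]
        · rw [Pi.single_eq_same, mul_one]
        · intro k _ hk
          rw [Pi.single_eq_of_ne hk, mul_zero]
        · intro h; exact absurd (Finset.mem_univ i) h
      have h3 : ∑ k, u j k * ∑ j', u j' i * w j' k = u j i := by
        have h4 : ∑ k, u j k * ∑ j', u j' i * w j' k = ∑ j', u j' i * ∑ k, u j k * w j' k := by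
          simp only [Finset.mul_sum]
          rw [Finset.sum_comm]
          refine Finset.sum_congr rfl fun j' _ => Finset.sum_congr rfl fun k _ => ?_
          ring
        rw [h4]
        simp only [huw]
        rw [Finset.sum_eq_single j]
        · rw [if_pos rfl, mul_one]
        · intro j' _ hj'
          rw [if_neg (Ne.symm hj'), mul_zero]
        · intro h; exact absurd (Finset.mem_univ j) h
      rw [h2, h3, sub_self]
    have h2 : ∑ k, (v k : Cc) * G k = 0 := h1 0
    have h3 : ∀ k, (v k : Cc) = (if k = i then 1 else 0) - ∑ j, (u j i : Cc) * (w j k : Cc) := by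
      intro k
      simp only [hv]
      by_cases hk : k = i
      · subst hk
        rw [Pi.single_eq_same, if_pos rfl]
        push_cast
        rfl
      · rw [Pi.single_eq_of_ne hk, if_neg hk]
        push_cast
        rfl
    simp only [h3, sub_mul, Finset.sum_sub_distrib, ite_mul, one_mul, zero_mul,
      Finset.sum_ite_eq', Finset.mem_univ, if_true] at h2
    rw [sub_eq_zero] at h2
    rw [h2]
    simp only [Finset.sum_mul, Finset.mul_sum]
    rw [Finset.sum_comm]
    refine Finset.sum_congr rfl fun j _ => Finset.sum_congr rfl fun k _ => ?_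
    ring
  -- a derivation which is dual to one of the combinations
  have hθ : ∀ j, ∑ k, (w j k : Cc) * G k = 0 := by
    intro j₀
    obtain ⟨D, hD⟩ := Pool.Agent.H135R2.VS.exists_der (hy.2.2 u hu)
      (Sum.elim (fun _ => (0 : Cc)) (fun j => if j = j₀ then 1 else 0))
    have hDx : ∀ i, D (x i) = 0 := fun i => hD (Sum.inl i)
    have hDy : ∀ j, ∑ i, (u j i : Cc) * D (y i) = if j = j₀ then 1 else 0 := by
      intro j
      have h1 : D (∑ i, (u j i : Cc) * y i) = if j = j₀ then 1 else 0 := hD (Sum.inr j)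
      rw [← h1, map_sum]
      refine Finset.sum_congr rfl fun i _ => ?_
      have h2 : (u j i : Cc) * y i = u j i • y i := by rw [Algebra.smul_def]; rfl
      have h3 : (u j i : Cc) * D (y i) = u j i • D (y i) := by rw [Algebra.smul_def]; rfl
      rw [h2, h3, Derivation.map_smul]
    have h1 := der_aeval' D (Sum.elim x y) f
    rw [hf, map_zero, Fintype.sum_sum_type] at h1
    simp only [Sum.elim_inl, Sum.elim_inr, hDx, mul_zero, Finset.sum_const_zero, zero_add] at h1
    have h2 : ∑ i, G i * D (y i) = ∑ j, (∑ k, (w j k : Cc) * G k) * ∑ i, (u j i : Cc) * D (y i) := by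
      calc ∑ i, G i * D (y i) = ∑ i, (∑ j, (u j i : Cc) * ∑ k, (w j k : Cc) * G k) * D (y i) :=
            Finset.sum_congr rfl fun i _ => by rw [← hGu i]
        _ = ∑ j, (∑ k, (w j k : Cc) * G k) * ∑ i, (u j i : Cc) * D (y i) := by
            simp only [Finset.sum_mul]
            rw [Finset.sum_comm]
            refine Finset.sum_congr rfl fun j _ => ?_
            rw [← Finset.sum_mul, Finset.mul_sum]
            refine Finset.sum_congr rfl fun i _ => ?_
            ring
    rw [h2] at h1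
    simp only [hDy, mul_ite, mul_one, mul_zero, Finset.sum_ite_eq', Finset.mem_univ, if_true] at h1
    exact h1.symm
  obtain ⟨i, hi⟩ := grad_ne_zero x y (hy.indep hs.le) hy.2.1 f hf0 hfA hf hmin
  apply hi
  change G i = 0
  rw [hGu i]
  refine Finset.sum_eq_zero fun j _ => ?_
  rw [hθ j, mul_zero]

/-- the exponent in the dimension theorem -/
theorem stratS_coord {M n m s h q : ℕ} (hs : s < m) (hh : 0 < h)
    (A B E : Finset ((Fin n ⊕ Fin m) →₀ ℕ))
    (hE : ∀ s ∈ A, ∀ t ∈ B, s + t ∈ E) (hmB : m * h ≤ B.card) (l' : Fin M → Cc)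
    (hl : LinearIndependent (QC Cc) l') (hl' : ∀ j, l' j ∈ Lt) (x : Fin n → Cc)
    (hq1 : (m - 1 - s) * M + m * (h * m - 1) + (E.card - B.card) / h + 1 ≤ q)
    (hq2 : (m - 1 - s) * M + m * (m - 1) + B.card ≤ q)
    (φ : Fin q → ((Fin m × Fin M → (QC Cc)) →ₗ[(QC Cc)] (QC Cc))) :
    ∃ P : MvPolynomial (Fin q) (QC Cc),
      P ≠ 0 ∧ ∀ b : Fin m → Fin M → (QC Cc), StratS s A x (yy l' b) →
        MvPolynomial.eval (fun k => φ k (fun q => b q.1 q.2)) P = 0 := by
  classical
  have hBc : 0 < B.card := lt_of_lt_of_le (Nat.mul_pos (by omega) hh) hmB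
  have hq2' : (m - 1 - s) * M + m * (1 * m - 1) + (B.card - ({0} :
      Finset ((Fin n ⊕ Fin m) →₀ ℕ)).card) / 1 + 1 ≤ q := by
    rw [Finset.card_singleton, Nat.div_one, one_mul]
    omega
  obtain ⟨P1, hP1, h1⟩ := rel_mul (ρ := m - 1 - s) hh A B E hE l' hl hl' x
    (fun k => φ (Fin.castLE hq1 k))
  obtain ⟨P2, hP2, h2⟩ := rel_mul (ρ := m - 1 - s) one_pos B {0} B (by
    intro s hs t ht
    rw [Finset.mem_singleton.1 ht, add_zero]
    exact hs) l' hl hl' x (fun k => φ (Fin.castLE hq2' k))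
  refine ⟨rename (Fin.castLE hq1) P1 * rename (Fin.castLE hq2') P2, ?_, fun b hy => ?_⟩
  · refine mul_ne_zero ?_ ?_
    · intro h
      apply hP1
      apply rename_injective _ (Fin.castLE_injective hq1)
      rw [h, map_zero]
    · intro h
      apply hP2
      apply rename_injective _ (Fin.castLE_injective hq2')
      rw [h, map_zero]
  · rw [map_mul, eval_rename, eval_rename]
    by_cases hRB : RlA (QC Cc) B (Sum.elim x (yy l' b))
    · obtain ⟨f, hf0, hfB, hf, hmin⟩ := exists_few _ hRB
      have := h2 b f hf0 hfB hf (rich_one _)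
        (rankS hs x _ ⟨hRB, hy.2⟩ f hf0 hfB hf hmin)
      rw [show ((fun k => φ k fun q => b q.1 q.2) ∘ Fin.castLE hq2') =
        (fun k => φ (Fin.castLE hq2' k) fun q => b q.1 q.2) from rfl, this, mul_zero]
    · obtain ⟨f, hf0, hfA, hf, hmin⟩ := exists_few _ hy.1
      have := h1 b f hf0 hfA hf (rich_of_not B _ hRB hmB)
        (rankS hs x _ hy f hf0 hfA hf hmin)
      rw [show ((fun k => φ k fun q => b q.1 q.2) ∘ Fin.castLE hq1) =
        (fun k => φ (Fin.castLE hq1 k) fun q => b q.1 q.2) from rfl, this, zero_mul]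

/-- **Strata.** -/
theorem thin_stratS {n m s h c : ℕ} (hs : s < m) (hh : 0 < h)
    (A B E : Finset ((Fin n ⊕ Fin m) →₀ ℕ))
    (hE : ∀ s ∈ A, ∀ t ∈ B, s + t ∈ E) (hmB : m * h ≤ B.card) (x : Fin n → Cc)
    (hq1 : m * (h * m - 1) + (E.card - B.card) / h + 1 ≤ c)
    (hq2 : m * (m - 1) + B.card ≤ c) :
    Thin Lt (fun M => (m - 1 - s) * M + c) {y : Fin m → Cc | StratS s A x y} := by
  intro M l' hl hl' φ
  exact stratS_coord hs hh A B E hE hmB l' hl hl' x
    (by change _ ≤ (m - 1 - s) * M + c; omega) (by change _ ≤ (m - 1 - s) * M + c; omega) φ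

/-- strata, without multipliers -/
theorem thin_stratS_one {n m s : ℕ} (hs : s < m)
    (A : Finset ((Fin n ⊕ Fin m) →₀ ℕ)) (hA0 : 0 < A.card) (x : Fin n → Cc) :
    Thin Lt (fun M => (m - 1 - s) * M + (m * (m - 1) + A.card))
      {y : Fin m → Cc | StratS s A x y} := by
  intro M l' hl hl' φ
  have hq : (m - 1 - s) * M + m * (1 * m - 1) + (A.card - ({0} :
      Finset ((Fin n ⊕ Fin m) →₀ ℕ)).card) / 1 + 1 ≤ (m - 1 - s) * M + (m * (m - 1) + A.card) := by
    rw [Finset.card_singleton, Nat.div_one, one_mul]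
    omega
  obtain ⟨P, hP, h1⟩ := rel_mul (ρ := m - 1 - s) one_pos A {0} A (by
    intro s hs t ht
    rw [Finset.mem_singleton.1 ht, add_zero]
    exact hs) l' hl hl' x (fun k => φ (Fin.castLE hq k))
  refine ⟨rename (Fin.castLE hq) P, ?_, fun b hy => ?_⟩
  · intro h0
    apply hP
    apply rename_injective _ (Fin.castLE_injective hq)
    rw [h0, map_zero]
  · rw [eval_rename]
    obtain ⟨f, hf0, hfA, hf, hmin⟩ := exists_few _ hy.1
    exact h1 b f hf0 hfA hf (rich_one _) (rankS hs x _ hy f hf0 hfA hf hmin)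

end Pool.Agent.Q147.SP
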