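import Mathlib
import Pool.Agent.H135R2.VS.Der

/-!
# Relations with few monomials: the gradient of a relation with the smallest number of monomials
-/

set_option autoImplicit false

namespace Pool.Agent.Q147.SP

open MvPolynomial

section

variable {K L : Type} [Field K] [Field L] [Algebra K L]

/-- the chain rule -/
theorem der_aeval' {σ : Type} [Fintype σ] (D : Derivation K L L) (z : σ → L)
    (g : MvPolynomial σ K) : D (aeval z g) = ∑ k, aeval z (pderiv k g) * D (z k) := by
  classical
  induction g using MvPolynomial.induction_on with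
  | C a => simp
  | add p q hp hq =>
    rw [map_add, map_add, hp, hq, ← Finset.sum_add_distrib]
    refine Finset.sum_congr rfl fun k _ => ?_
    rw [map_add, map_add, add_mul]
  | mul_X p j hp =>
    rw [map_mul, aeval_X, Derivation.leibniz, hp, smul_eq_mul, smul_eq_mul, Finset.mul_sum]
    have h1 : ∀ k, aeval z (pderiv k (p * X j)) * D (z k) =
        (if k = j then aeval z p * D (z j) else 0) + z j * (aeval z (pderiv k p) * D (z k)) := by
      intro k
      rw [Derivation.leibniz, smul_eq_mul, smul_eq_mul, map_add, map_mul, map_mul, aeval_X, pderiv_X,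
        Pi.single_apply]
      by_cases h : k = j
      · subst h
        rw [if_pos rfl, if_pos rfl, map_one]
        ring
      · rw [if_neg h, if_neg (Ne.symm h), map_zero]
        ring
    simp only [h1, Finset.sum_add_distrib, Finset.sum_ite_eq', Finset.mem_univ, if_true]

/-- A relation with exponents in `A` which has the smallest number of monomials. -/
theorem exists_few {σ : Type} {A : Finset (σ →₀ ℕ)} (z : σ → L)
    (h : ∃ f : MvPolynomial σ K, f ≠ 0 ∧ f.support ⊆ A ∧ aeval z f = 0) :
    ∃ f : MvPolynomial σ K, f ≠ 0 ∧ f.support ⊆ A ∧ aeval z f = 0 ∧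
      ∀ g : MvPolynomial σ K, g ≠ 0 → g.support ⊆ A → aeval z g = 0 →
        f.support.card ≤ g.support.card := by
  classical
  have hex : ∃ d, ∃ f : MvPolynomial σ K, f ≠ 0 ∧ f.support ⊆ A ∧ f.support.card = d ∧
      aeval z f = 0 := by
    obtain ⟨f, h1, h2, h3⟩ := h
    exact ⟨_, f, h1, h2, rfl, h3⟩
  obtain ⟨f, h1, h2, h3, h4⟩ := Nat.find_spec hex
  refine ⟨f, h1, h2, h4, fun g hg1 hg2 hg3 => ?_⟩
  rw [h3]
  exact Nat.find_min' hex ⟨g, hg1, hg2, rfl, hg3⟩

theorem coeff_X_mul_pderiv {σ : Type} (f : MvPolynomial σ K) (i : σ) (t : σ →₀ ℕ) :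
    coeff t (X i * pderiv i f) = (t i : K) * coeff t f := by
  classical
  induction f using MvPolynomial.induction_on' with
  | monomial s a =>
    rw [pderiv_monomial]
    by_cases hs : s i = 0
    · rw [hs, Nat.cast_zero, mul_zero, monomial_zero, mul_zero, coeff_zero, coeff_monomial]
      split_ifs with h
      · rw [← h, hs, Nat.cast_zero, zero_mul]
      · rw [mul_zero]
    · have h1 : X i * monomial (s - Finsupp.single i 1) (a * (s i : K)) =
          monomial s (a * (s i : K)) := by
        rw [X, monomial_mul, one_mul]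
        congr 1
        rw [add_tsub_cancel_of_le]
        rw [Finsupp.single_le_iff]
        omega
      rw [h1, coeff_monomial, coeff_monomial]
      split_ifs with h
      · rw [← h, mul_comm]
      · rw [mul_zero]
  | add p q hp hq => rw [map_add, mul_add, coeff_add, hp, hq, coeff_add, mul_add]

/-- If `X_i ∂f/∂X_i` vanishes at `z` and `f` has the smallest number of monomials, then all monomials
of `f` have the same degree in `X_i`. -/
theorem same_degree {σ : Type} {A : Finset (σ →₀ ℕ)} [CharZero K] (z : σ → L)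
    (f : MvPolynomial σ K)
    (hfA : f.support ⊆ A) (hf : aeval z f = 0)
    (hmin : ∀ g : MvPolynomial σ K, g ≠ 0 → g.support ⊆ A → aeval z g = 0 →
        f.support.card ≤ g.support.card) (i : σ)
    (h0 : aeval z (pderiv i f) = 0) {s t : σ →₀ ℕ} (hs : s ∈ f.support) (ht : t ∈ f.support) :
    s i = t i := by
  classical
  set g : MvPolynomial σ K := X i * pderiv i f - C (s i : K) * f with hg
  have hgc : ∀ r, coeff r g = ((r i : K) - (s i : K)) * coeff r f := by
    intro r
    rw [hg, coeff_sub, coeff_X_mul_pderiv, coeff_C_mul, sub_mul]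
  have hgs : g.support ⊆ f.support.erase s := by
    intro r hr
    rw [mem_support_iff, hgc] at hr
    rw [Finset.mem_erase, mem_support_iff]
    refine ⟨fun h => ?_, right_ne_zero_of_mul hr⟩
    rw [h, sub_self, zero_mul] at hr
    exact hr rfl
  have hg0 : g = 0 := by
    by_contra hne
    have h1 := hmin g hne (fun r hr => hfA (Finset.mem_of_mem_erase (hgs hr))) (by
      rw [hg, map_sub, map_mul, map_mul, h0, hf, mul_zero, mul_zero, sub_zero])
    have h2 := Finset.card_le_card hgs
    have h3 := Finset.card_erase_lt_of_mem hs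
    omega
  have h1 := hgc t
  rw [hg0, coeff_zero] at h1
  have h2 : coeff t f ≠ 0 := mem_support_iff.1 ht
  have h3 : (t i : K) - (s i : K) = 0 := (mul_eq_zero.1 h1.symm).resolve_right h2
  rw [sub_eq_zero] at h3
  exact (Nat.cast_injective h3).symm

/-- Some derivative of a relation with the smallest number of monomials does not vanish. -/
theorem grad_ne_zero {ι κ : Type} [Fintype ι] [Fintype κ] {A : Finset ((ι ⊕ κ) →₀ ℕ)} [CharZero K]
    (x : ι → L) (y : κ → L) (hx : AlgebraicIndependent K x) (hy : ∀ i, y i ≠ 0)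
    (f : MvPolynomial (ι ⊕ κ) K) (hf0 : f ≠ 0)
    (hfA : f.support ⊆ A) (hf : aeval (Sum.elim x y) f = 0)
    (hmin : ∀ g : MvPolynomial (ι ⊕ κ) K, g ≠ 0 → g.support ⊆ A → aeval (Sum.elim x y) g = 0 →
        f.support.card ≤ g.support.card) :
    ∃ i : κ, aeval (Sum.elim x y) (pderiv (Sum.inr i : ι ⊕ κ) f) ≠ 0 := by
  classical
  by_contra hcon
  push Not at hcon
  have hsame : ∀ i : κ, ∀ s ∈ f.support, ∀ t ∈ f.support, s (Sum.inr i) = t (Sum.inr i) :=
    fun i s hs t ht => same_degree (Sum.elim x y) f hfA hf hmin (Sum.inr i) (hcon i) hs ht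
  obtain ⟨s₀, hs₀⟩ := support_nonempty.2 hf0
  -- the part in the variables `x`
  let g : MvPolynomial ι K := ∑ s ∈ f.support,
    monomial (Finsupp.comapDomain Sum.inl s Sum.inl_injective.injOn) (coeff s f)
  have hval : aeval (Sum.elim x y) f = (∏ i, y i ^ s₀ (Sum.inr i)) * aeval x g := by
    conv_lhs => rw [f.as_sum]
    simp only [g, map_sum, Finset.mul_sum]
    refine Finset.sum_congr rfl fun s hs => ?_
    rw [aeval_monomial, aeval_monomial]
    rw [Finsupp.prod_fintype _ _ (fun i => pow_zero _), Finsupp.prod_fintype _ _ (fun i => pow_zero _)]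
    rw [Fintype.prod_sum_type]
    have h1 : ∏ i : κ, (Sum.elim x y (Sum.inr i) : L) ^ s (Sum.inr i) =
        ∏ i, y i ^ s₀ (Sum.inr i) := Finset.prod_congr rfl fun i _ => by
      rw [Sum.elim_inr, hsame i s hs s₀ hs₀]
    rw [h1]
    simp only [Sum.elim_inl, Finsupp.comapDomain_apply]
    ring
  have hprod : (∏ i, y i ^ s₀ (Sum.inr i)) ≠ 0 :=
    Finset.prod_ne_zero_iff.2 fun i _ => pow_ne_zero _ (hy i)
  have hg : aeval x g = 0 := by
    rw [hval] at hf
    exact (mul_eq_zero.1 hf).resolve_left hprod
  have hg0 : g = 0 := (map_eq_zero_iff _ hx).1 (by exact hg)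
  have hinj : ∀ s ∈ f.support, ∀ t ∈ f.support,
      Finsupp.comapDomain (Sum.inl : ι → ι ⊕ κ) s Sum.inl_injective.injOn =
        Finsupp.comapDomain (Sum.inl : ι → ι ⊕ κ) t Sum.inl_injective.injOn → s = t := by
    intro s hs t ht h
    ext k
    cases k with
    | inl i =>
      have := DFunLike.congr_fun h i
      rwa [Finsupp.comapDomain_apply, Finsupp.comapDomain_apply] at this
    | inr i => exact hsame i s hs t ht
  have hco : coeff (Finsupp.comapDomain (Sum.inl : ι → ι ⊕ κ) s₀ Sum.inl_injective.injOn) g =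
      coeff s₀ f := by
    simp only [g, coeff_sum]
    rw [Finset.sum_eq_single s₀]
    · rw [coeff_monomial, if_pos rfl]
    · intro t ht hts
      rw [coeff_monomial, if_neg]
      intro h
      exact hts (hinj t ht s₀ hs₀ h)
    · intro h; exact absurd hs₀ h
  rw [hg0, coeff_zero] at hco
  exact (mem_support_iff.1 hs₀) hco.symm

end

end Pool.Agent.Q147.SP
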